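import Pool.Agent.Q154.PT.Hil0
import Pool.Agent.Q169.PT.Stm

/-!
# Project PT, job HIL
-/

set_option autoImplicit false

namespace Pool.Agent.Q154.PT.Hil

theorem hil : Pool.Agent.Q169.PT.S_HIL := by
  intro H₁ H₂ H₃ _ _ _ _ _ _ _ _ _ A B h1 h2 h3 h4
  exact hil0 H₁ H₂ H₃ A B h1 h2 h3 h4

end Pool.Agent.Q154.PT.Hil
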