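import Mathlib

set_option autoImplicit false

namespace Pool.Agent.Q154.PT.Hil

open scoped NNReal

/-- A coercive operator on a Hilbert space is onto. -/
theorem surj_of_coercive {H : Type} [NormedAddCommGroup H] [InnerProductSpace ℂ H]
    [CompleteSpace H] (T : H →L[ℂ] H) (ε : ℝ) (hε : 0 < ε)
    (h : ∀ x, ε * ‖x‖ ^ 2 ≤ ‖(inner ℂ (T x) x : ℂ)‖) : Function.Surjective T := by
  have hb : ∀ x, ε * ‖x‖ ≤ ‖T x‖ := by
    intro x
    have h1 := (h x).trans (norm_inner_le_norm (T x) x)
    rcases (norm_nonneg x).eq_or_lt' with h0 | h0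
    · rw [h0, mul_zero]
      exact norm_nonneg _
    · have : (ε * ‖x‖) * ‖x‖ ≤ ‖T x‖ * ‖x‖ := by
        calc (ε * ‖x‖) * ‖x‖ = ε * ‖x‖ ^ 2 := by ring
          _ ≤ _ := h1
      exact le_of_mul_le_mul_right this h0
  have hanti : AntilipschitzWith (⟨ε⁻¹, by positivity⟩ : ℝ≥0) T := by
    refine T.antilipschitz_of_bound fun x => ?_
    change ‖x‖ ≤ ε⁻¹ * ‖T x‖
    rw [inv_mul_eq_div, le_div_iff₀ hε, mul_comm]
    exact hb x
  have hcl : IsClosed (Set.range T) := hanti.isClosed_range T.uniformContinuous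
  let R : Submodule ℂ H := LinearMap.range (T : H →ₗ[ℂ] H)
  have hRc : IsClosed (R : Set H) := by
    have : (R : Set H) = Set.range T := by
      ext x
      simp [R]
    rw [this]
    exact hcl
  have : CompleteSpace R := hRc.completeSpace_coe
  have hbot : Rᗮ = ⊥ := by
    rw [Submodule.eq_bot_iff]
    intro x hx
    have h1 : (inner ℂ (T x) x : ℂ) = 0 := (Submodule.mem_orthogonal R x).1 hx (T x) ⟨x, rfl⟩
    have h2 := h x
    rw [h1, norm_zero] at h2
    have h3 : ‖x‖ ^ 2 ≤ 0 := by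
      by_contra hcon
      push Not at hcon
      have := mul_pos hε hcon
      linarith
    have h4 : ‖x‖ = 0 := by
      have := sq_nonneg ‖x‖
      exact pow_eq_zero_iff (two_ne_zero) |>.1 (le_antisymm h3 this)
    exact norm_eq_zero.1 h4
  have htop : R = ⊤ := (Submodule.orthogonal_eq_bot_iff).1 hbot
  intro y
  have : y ∈ R := by rw [htop]; trivial
  obtain ⟨x, hx⟩ := this
  exact ⟨x, hx⟩

theorem hil0 (H₁ H₂ H₃ : Type) [NormedAddCommGroup H₁] [InnerProductSpace ℂ H₁]
    [CompleteSpace H₁]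
    [NormedAddCommGroup H₂] [InnerProductSpace ℂ H₂] [CompleteSpace H₂]
    [NormedAddCommGroup H₃] [InnerProductSpace ℂ H₃] [CompleteSpace H₃]
    (A : H₁ →L[ℂ] H₂) (B : H₂ →L[ℂ] H₃) (hBA : ∀ x, B (A x) = 0)
    (hinj : ∀ z, ContinuousLinearMap.adjoint B z = 0 → z = 0)
    (hex : ∀ u, ContinuousLinearMap.adjoint A u = 0 → ∃ z, ContinuousLinearMap.adjoint B z = u)
    (hgap : ∃ ε : ℝ, 0 < ε ∧ ∀ u, (∀ z, inner ℂ (ContinuousLinearMap.adjoint B z) u = 0) →
      ε * ‖u‖ ^ 2 ≤ ‖ContinuousLinearMap.adjoint A u‖ ^ 2) :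
    (∀ u, B u = 0 → ∃ x, A x = u) ∧ ∀ z, ∃ u, B u = z := by
  constructor
  · obtain ⟨ε, hε, hg⟩ := hgap
    let K : Submodule ℂ H₂ := LinearMap.ker (B : H₂ →ₗ[ℂ] H₃)
    have hKm : ∀ x, x ∈ K ↔ B x = 0 := fun x => Iff.rfl
    have hKc : IsClosed (K : Set H₂) := by
      have : (K : Set H₂) = B ⁻¹' {0} := by
        ext x
        simp [K]
      rw [this]
      exact isClosed_singleton.preimage B.continuous
    have : CompleteSpace K := hKc.completeSpace_coe
    let S : K →L[ℂ] H₂ := (A ∘L ContinuousLinearMap.adjoint A) ∘L K.subtypeL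
    let T : K →L[ℂ] K := S.codRestrict K fun x => (hKm _).2 (hBA _)
    have hT : ∀ x : K, ((T x : K) : H₂) = A (ContinuousLinearMap.adjoint A (x : H₂)) :=
      fun x => rfl
    have hsurj := surj_of_coercive T ε hε (by
      intro x
      have h1 : (inner ℂ (T x) x : ℂ) = inner ℂ (ContinuousLinearMap.adjoint A (x : H₂))
          (ContinuousLinearMap.adjoint A (x : H₂)) := by
        rw [Submodule.coe_inner, hT, ← ContinuousLinearMap.adjoint_inner_right]
      rw [h1, inner_self_eq_norm_sq_to_K]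
      have h2 := hg (x : H₂) (by
        intro z
        rw [ContinuousLinearMap.adjoint_inner_left, (hKm _).1 x.2, inner_zero_right])
      simpa using h2)
    intro u hu
    obtain ⟨x, hx⟩ := hsurj ⟨u, (hKm u).2 hu⟩
    refine ⟨ContinuousLinearMap.adjoint A (x : H₂), ?_⟩
    rw [← hT, hx]
  · have hA0 : ∀ z, ContinuousLinearMap.adjoint A (ContinuousLinearMap.adjoint B z) = 0 := by
      intro z
      rw [← inner_self_eq_zero (𝕜 := ℂ), ContinuousLinearMap.adjoint_inner_left,
        ContinuousLinearMap.adjoint_inner_left, hBA, inner_zero_right]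
    have hrange : Set.range (ContinuousLinearMap.adjoint B) =
        (ContinuousLinearMap.adjoint A) ⁻¹' {0} := by
      ext u
      constructor
      · rintro ⟨z, rfl⟩
        exact hA0 z
      · intro hu
        exact hex u hu
    have hcl : IsClosed (Set.range (ContinuousLinearMap.adjoint B)) := by
      rw [hrange]
      exact isClosed_singleton.preimage (ContinuousLinearMap.adjoint A).continuous
    have hinj' : Function.Injective (ContinuousLinearMap.adjoint B) := by
      rw [injective_iff_map_eq_zero]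
      exact hinj
    obtain ⟨c, hc, hb⟩ : ∃ c : ℝ, 0 < c ∧ ∀ z, c * ‖z‖ ≤ ‖ContinuousLinearMap.adjoint B z‖ := by
      obtain ⟨K, hK⟩ := ContinuousLinearMap.antilipschitz_of_injective_of_isClosed_range
        (ContinuousLinearMap.adjoint B) hinj' hcl
      refine ⟨((K : ℝ) + 1)⁻¹, by positivity, fun z => ?_⟩
      have h1 : ‖z‖ ≤ K * ‖ContinuousLinearMap.adjoint B z‖ := hK.le_mul_norm (map_zero _) z
      rw [inv_mul_eq_div, div_le_iff₀ (by positivity)]
      nlinarith [norm_nonneg (ContinuousLinearMap.adjoint B z)]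
    have hsurj := surj_of_coercive (B ∘L ContinuousLinearMap.adjoint B) (c ^ 2) (by positivity) (by
      intro z
      have h1 : (inner ℂ ((B ∘L ContinuousLinearMap.adjoint B) z) z : ℂ) =
          inner ℂ (ContinuousLinearMap.adjoint B z) (ContinuousLinearMap.adjoint B z) := by
        rw [ContinuousLinearMap.comp_apply, ← ContinuousLinearMap.adjoint_inner_right]
      rw [h1, inner_self_eq_norm_sq_to_K]
      have h2 := hb z
      have h3 : (c * ‖z‖) ^ 2 ≤ ‖ContinuousLinearMap.adjoint B z‖ ^ 2 :=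
        pow_le_pow_left₀ (by positivity) h2 2
      rw [mul_pow] at h3
      simpa using h3)
    intro z
    obtain ⟨w, hw⟩ := hsurj z
    exact ⟨_, hw⟩

end Pool.Agent.Q154.PT.Hil
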