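import Pool.Agent.Q169.PT.Stm

/-!
# Project PT, job INF: a group with vanishing `H^0(G; ℤ[G])` is infinite
-/

set_option autoImplicit false

open scoped Matrix
open Pool.Agent.H919R4.ZS

namespace Pool.Agent.Q154.PT.Inf

theorem augm_single {G : Type} [Group G] (g : G) (r : ℤ) :
    augm G (MonoidAlgebra.single g r) = r := by
  unfold augm
  simp

theorem inf : Pool.Agent.Q169.PT.S_INF := by
  intro G _ X hX
  by_contra hfin
  rw [not_infinite_iff_finite] at hfin
  have := Fintype.ofFinite G
  let N : MonoidAlgebra ℤ G := ∑ g : G, MonoidAlgebra.single g 1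
  have hN : ∀ a : MonoidAlgebra ℤ G, a * N = (augm G a) • N := by
    intro a
    refine MonoidAlgebra.induction_linear a ?_ ?_ ?_
    · simp
    · intro x y hx hy
      rw [add_mul, hx, hy, map_add, add_smul]
    · intro g r
      rw [augm_single]
      change MonoidAlgebra.single g r * ∑ h : G, MonoidAlgebra.single h 1 =
        r • ∑ h : G, MonoidAlgebra.single h 1
      rw [Finset.mul_sum, Finset.smul_sum]
      refine Fintype.sum_equiv (Equiv.mulLeft g) _ _ fun h => ?_
      rw [MonoidAlgebra.single_mul_single, MonoidAlgebra.smul_single]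
      simp
  have hNa : augm G N = Fintype.card G := by
    change augm G (∑ g : G, MonoidAlgebra.single g 1) = _
    rw [map_sum, Finset.sum_congr rfl fun g _ => augm_single g 1]
    simp
  let y : Fin (X.n 0) → MonoidAlgebra ℤ G := fun j => X.aug j • N
  have hy : X.d 0 *ᵥ y = 0 := by
    funext k
    have hrow : ∑ j, augm G (X.d 0 k j) * X.aug j = 0 :=
      (X.exact_zero (X.d 0 k)).2 ⟨Pi.single k 1, by rw [Matrix.single_one_vecMul]; rfl⟩
    change ∑ j, X.d 0 k j * (X.aug j • N) = 0
    have e : ∀ j, X.d 0 k j * (X.aug j • N) = (augm G (X.d 0 k j) * X.aug j) • N := by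
      intro j
      rw [mul_smul_comm, hN, smul_smul, mul_comm]
    rw [Finset.sum_congr rfl fun j _ => e j, ← Finset.sum_smul, hrow, zero_smul]
  have hy0 : y = 0 := by
    have h : (QuotientAddGroup.mk (⟨y, hy⟩ : (X.cobd 0).ker) : X.cohomology 0) =
        QuotientAddGroup.mk 0 := Subsingleton.elim _ _
    rw [QuotientAddGroup.eq, add_zero, AddSubgroup.mem_addSubgroupOf] at h
    have h2 : -y = 0 := h
    exact neg_eq_zero.1 h2
  obtain ⟨x, hx⟩ := X.surj
  have haug : ∀ j, X.aug j = 0 := by
    intro j
    have h1 : X.aug j • N = 0 := congrFun hy0 j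
    have h2 : augm G (X.aug j • N) = 0 := by rw [h1, map_zero]
    rw [map_zsmul, hNa, smul_eq_mul] at h2
    rcases mul_eq_zero.1 h2 with h3 | h3
    · exact h3
    · exfalso
      have : Fintype.card G ≠ 0 := Fintype.card_ne_zero
      exact this (by exact_mod_cast h3)
  rw [Finset.sum_eq_zero fun j _ => by rw [haug j, mul_zero]] at hx
  exact zero_ne_one hx

end Pool.Agent.Q154.PT.Inf
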