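import Pool.Agent.Q169.PT.Stm

/-!
# Project PT, job ORI: the orientation character
-/

set_option autoImplicit false

open scoped Matrix
open Pool.Agent.H919R4.ZS Pool.Agent.Q169.PT

namespace Pool.Agent.Q154.PT.Ori

/-- Right multiplication of the entries. -/
noncomputable def rm {G : Type} [Group G] {n : ℕ} (g : G) :
    (Fin n → MonoidAlgebra ℤ G) →+ (Fin n → MonoidAlgebra ℤ G) where
  toFun y := fun j => y j * MonoidAlgebra.single g 1
  map_zero' := by
    funext j
    simp
  map_add' y z := by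
    funext j
    simp [add_mul]

theorem rm_apply {G : Type} [Group G] {n : ℕ} (g : G) (y : Fin n → MonoidAlgebra ℤ G) (j : Fin n) :
    rm g y j = y j * MonoidAlgebra.single g 1 := rfl

theorem rm_mul {G : Type} [Group G] {n : ℕ} (g h : G) (y : Fin n → MonoidAlgebra ℤ G) :
    rm (g * h) y = rm h (rm g y) := by
  funext j
  rw [rm_apply, rm_apply, rm_apply, mul_assoc, MonoidAlgebra.single_mul_single, mul_one]

theorem rm_one {G : Type} [Group G] {n : ℕ} (y : Fin n → MonoidAlgebra ℤ G) :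
    rm 1 y = y := by
  funext j
  rw [rm_apply, ← MonoidAlgebra.one_def, mul_one]

theorem rm_mulVec {G : Type} [Group G] {m n : ℕ} (M : Matrix (Fin m) (Fin n) (MonoidAlgebra ℤ G))
    (g : G) (z : Fin n → MonoidAlgebra ℤ G) : rm g (M *ᵥ z) = M *ᵥ (rm g z) := by
  funext j
  simp only [rm_apply, Matrix.mulVec, dotProduct, Finset.sum_mul, mul_assoc]

theorem ori : S_ORI := by
  intro G _ X hlen ⟨e⟩
  have hn4 : X.n 4 = 0 := X.n_eq_zero 4 (by omega)
  have hker : ∀ y, y ∈ (X.cobd 3).ker := by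
    intro y
    have : IsEmpty (Fin (X.n (3 + 1))) := by
      rw [show X.n (3 + 1) = 0 from hn4]
      infer_instance
    rw [AddMonoidHom.mem_ker]
    exact Subsingleton.elim _ _
  let ι : (Fin (X.n 3) → MonoidAlgebra ℤ G) →+ (X.cobd 3).ker :=
    { toFun := fun y => ⟨y, hker y⟩
      map_zero' := rfl
      map_add' := fun _ _ => rfl }
  let ε : (Fin (X.n 3) → MonoidAlgebra ℤ G) →+ ℤ :=
    (e.toAddMonoidHom.comp (QuotientAddGroup.mk' _)).comp ι
  have hsurj : Function.Surjective ε := by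
    intro c
    obtain ⟨q, hq⟩ := e.surjective c
    obtain ⟨y, rfl⟩ := QuotientAddGroup.mk_surjective q
    exact ⟨y.1, hq⟩
  have hk : ∀ y, ε y = 0 ↔ ∃ z, X.d 2 *ᵥ z = y := by
    intro y
    have h1 : ε y = 0 ↔ (QuotientAddGroup.mk (ι y) : X.cohomology 3) = 0 := by
      change e (QuotientAddGroup.mk (ι y)) = 0 ↔ _
      exact e.map_eq_zero_iff
    rw [h1, QuotientAddGroup.eq_zero_iff, AddSubgroup.mem_addSubgroupOf]
    exact Iff.rfl
  obtain ⟨y0, hy0⟩ := hsurj 1
  have hrm0 : ∀ g y, ε y = 0 → ε (rm g y) = 0 := by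
    intro g y hy
    obtain ⟨z, rfl⟩ := (hk y).1 hy
    exact (hk _).2 ⟨rm g z, (rm_mulVec _ _ _).symm⟩
  have hrm : ∀ g y, ε (rm g y) = ε (rm g y0) * ε y := by
    intro g y
    have h1 : ε (y - ε y • y0) = 0 := by
      rw [map_sub, map_zsmul, hy0, smul_eq_mul, mul_one, sub_self]
    have h2 := hrm0 g _ h1
    rw [map_sub, map_zsmul, map_sub, map_zsmul, smul_eq_mul] at h2
    linarith
  let w0 : G →* ℤ :=
    { toFun := fun g => ε (rm g y0)
      map_one' := by
        change ε (rm 1 y0) = 1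
        rw [rm_one, hy0]
      map_mul' := by
        intro g h
        change ε (rm (g * h) y0) = ε (rm g y0) * ε (rm h y0)
        rw [rm_mul, hrm h, mul_comm] }
  refine ⟨w0.toHomUnits, ε, hsurj, hk, ?_⟩
  intro y g
  rw [MonoidHom.coe_toHomUnits]
  exact hrm g y

end Pool.Agent.Q154.PT.Ori
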