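import Pool.Agent.Q169.PT.Stm

/-!
# Project PT, job TWIST: the twist of the regular representation by a sign character
-/

set_option autoImplicit false

open scoped ENNReal
open Pool.Agent.H919R4.ZS Pool.Agent.Q169.PT

namespace Pool.Agent.Q154.PT.Twist

noncomputable section

variable {G : Type} [Group G] (w : G →* ℤˣ)

/-- The value of the character as a complex number. -/
def s (g : G) : ℂ := ((w g : ℤ) : ℂ)

theorem s_mul (g h : G) : s w (g * h) = s w g * s w h := by
  unfold s
  rw [map_mul, Units.val_mul, Int.cast_mul]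

theorem s_sq (g : G) : s w g * s w g = 1 := by
  unfold s
  rw [← Int.cast_mul, ← Units.val_mul, Int.units_mul_self]
  simp

theorem s_one : s w 1 = 1 := by
  unfold s
  simp

theorem s_inv (g : G) : s w g⁻¹ = s w g := by
  have h1 : s w g⁻¹ * s w g = 1 := by
    rw [← s_mul, inv_mul_cancel, s_one]
  have h2 := s_sq w g
  calc s w g⁻¹ = s w g⁻¹ * (s w g * s w g) := by rw [h2, mul_one]
    _ = (s w g⁻¹ * s w g) * s w g := by ring
    _ = s w g := by rw [h1, one_mul]

theorem norm_s (g : G) : ‖s w g‖ = 1 := by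
  have h := congrArg norm (s_sq w g)
  rw [norm_mul, norm_one] at h
  nlinarith [norm_nonneg (s w g)]

theorem conj_s (g : G) : (starRingEnd ℂ) (s w g) = s w g := by
  unfold s
  simp

/-- Multiplication with the character. -/
def U : L2 G →ₗ[ℂ] L2 G where
  toFun f := ⟨fun h => s w h * f h, by
    refine memℓp_gen (p := 2) ?_
    have h2 : 0 < (2 : ℝ≥0∞).toReal := by norm_num
    have h3 := (memℓp_gen_iff h2).1 (lp.memℓp f)
    refine h3.congr fun h => ?_
    rw [norm_mul, norm_s, one_mul]⟩
  map_add' f g := by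
    ext h
    change s w h * (f + g) h = s w h * f h + s w h * g h
    rw [lp.coeFn_add, Pi.add_apply, mul_add]
  map_smul' c f := by
    ext h
    change s w h * (c • f) h = c * (s w h * f h)
    rw [lp.coeFn_smul, Pi.smul_apply, smul_eq_mul]
    ring

theorem U_apply (f : L2 G) (h : G) : U w f h = s w h * f h := rfl

theorem norm_U (f : L2 G) : ‖U w f‖ = ‖f‖ := by
  have h2 : 0 < (2 : ℝ≥0∞).toReal := by norm_num
  rw [lp.norm_eq_tsum_rpow h2, lp.norm_eq_tsum_rpow h2]
  congr 1
  refine tsum_congr fun h => ?_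
  rw [U_apply, norm_mul, norm_s, one_mul]

theorem reg_hom (g : G) (f : L2 G) (h : G) : (reg G).hom g f h = f (g⁻¹ * h) := rfl

theorem U_reg_U (g : G) (f : L2 G) : U w ((reg G).hom g (U w f)) = s w g • (reg G).hom g f := by
  ext h
  rw [U_apply, reg_hom, U_apply, lp.coeFn_smul, Pi.smul_apply, smul_eq_mul, reg_hom, s_mul, s_inv]
  calc s w h * (s w g * s w h * f (g⁻¹ * h)) = (s w h * s w h) * (s w g * f (g⁻¹ * h)) := by ring
    _ = s w g * f (g⁻¹ * h) := by rw [s_sq, one_mul]

/-- The twisted regular representation. -/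
def tw : Rep G (L2 G) where
  hom :=
    { toFun := fun g => s w g • (reg G).hom g
      map_one' := by
        rw [s_one, one_smul, map_one]
      map_mul' := fun g h => by
        rw [s_mul, map_mul, smul_mul_smul_comm] }
  norm := fun g f => by
    change ‖s w g • (reg G).hom g f‖ = ‖f‖
    rw [norm_smul, norm_s, one_mul, (reg G).norm]

theorem tw_hom (g : G) (f : L2 G) : (tw w).hom g f = s w g • (reg G).hom g f := rfl

theorem tw_sum (c : G →₀ ℂ) (f : L2 G) : (tw w).sum c f = U w ((reg G).sum c (U w f)) := by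
  unfold Rep.sum
  rw [Finsupp.sum, Finsupp.sum, map_sum]
  refine Finset.sum_congr rfl fun g _ => ?_
  rw [map_smul, U_reg_U, tw_hom]

theorem tempered : Tempered (tw w) := by
  intro c K hK f
  rw [tw_sum, norm_U]
  refine (hK (U w f)).trans ?_
  rw [norm_U]

theorem fixed [Infinite G] (f : L2 G) (hf : ∀ g, (tw w).hom g f = f) : f = 0 := by
  have h1 : ∀ h, ‖f h‖ = ‖f 1‖ := by
    intro h
    have e := congrArg (fun F : L2 G => F h) (hf h)
    simp only [] at e
    rw [tw_hom, lp.coeFn_smul, Pi.smul_apply, smul_eq_mul, reg_hom, inv_mul_cancel] at e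
    rw [← e, norm_mul, norm_s, one_mul]
  have h2 : 0 < (2 : ℝ≥0∞).toReal := by norm_num
  have h3 := ((memℓp_gen_iff h2).1 (lp.memℓp f)).tendsto_cofinite_zero
  have h4 : Filter.Tendsto (fun _ : G => ‖f 1‖ ^ (2 : ℝ≥0∞).toReal) Filter.cofinite (nhds 0) := by
    refine h3.congr fun h => ?_
    rw [h1 h]
  have h5 : ‖f 1‖ ^ (2 : ℝ≥0∞).toReal = 0 := tendsto_nhds_unique tendsto_const_nhds h4
  have h6 : ‖f 1‖ = 0 := by
    have : (2 : ℝ≥0∞).toReal = 2 := by norm_num
    rw [this] at h5
    norm_num at h5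
    simpa using h5
  ext h
  have := h1 h
  rw [h6] at this
  simpa using this

theorem reg_inner (g : G) (x y : L2 G) :
    inner ℂ ((reg G).hom g x) ((reg G).hom g y) = (inner ℂ x y : ℂ) := by
  let I : L2 G →ₗᵢ[ℂ] L2 G := ⟨((reg G).hom g : L2 G →ₗ[ℂ] L2 G), (reg G).norm g⟩
  exact I.inner_map_map x y

theorem reg_adj (g : G) (x y : L2 G) :
    inner ℂ ((reg G).hom g⁻¹ x) y = (inner ℂ x ((reg G).hom g y) : ℂ) := by
  rw [← reg_inner g ((reg G).hom g⁻¹ x) y]
  congr 1
  have : (reg G).hom g ((reg G).hom g⁻¹ x) = ((reg G).hom g * (reg G).hom g⁻¹) x := rfl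
  rw [this, ← map_mul, mul_inv_cancel, map_one]
  rfl

theorem alg_single (π : Rep G (L2 G)) (g : G) (r : ℤ) (x : L2 G) :
    π.alg (MonoidAlgebra.single g r) x = (r : ℂ) • π.hom g x := by
  have h : π.alg (MonoidAlgebra.single g r) = ((r : ℤ) : L2 G →L[ℂ] L2 G) * π.hom g := by
    change MonoidAlgebra.liftNC _ _ _ = _
    rw [MonoidAlgebra.liftNC_single]
    rfl
  rw [h, ← zsmul_eq_mul, Int.cast_smul_eq_zsmul]
  rfl

/-- The twisted involution of the group ring. -/
def T (a : MonoidAlgebra ℤ G) : MonoidAlgebra ℤ G :=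
  a.coeff.sum fun g r => MonoidAlgebra.single g⁻¹ ((w g : ℤ) * r)

theorem T_zero : T w 0 = 0 := by
  unfold T
  simp

theorem T_add (a b : MonoidAlgebra ℤ G) : T w (a + b) = T w a + T w b := by
  unfold T
  rw [MonoidAlgebra.coeff_add, Finsupp.sum_add_index']
  · intro g
    simp
  · intro g r r'
    rw [mul_add, MonoidAlgebra.single_add]

theorem T_single (g : G) (r : ℤ) :
    T w (MonoidAlgebra.single g r) = MonoidAlgebra.single g⁻¹ ((w g : ℤ) * r) := by
  unfold T
  rw [MonoidAlgebra.coeff_single, Finsupp.sum_single_index]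
  simp

theorem T_coeff (a : MonoidAlgebra ℤ G) (h : G) :
    (T w a).coeff h = (w h : ℤ) * a.coeff h⁻¹ := by
  classical
  refine MonoidAlgebra.induction_linear a ?_ ?_ ?_
  · rw [T_zero]
    simp
  · intro x y hx hy
    rw [T_add, MonoidAlgebra.coeff_add, MonoidAlgebra.coeff_add, Finsupp.add_apply,
      Finsupp.add_apply, hx, hy, mul_add]
  · intro g r
    rw [T_single, MonoidAlgebra.coeff_single, MonoidAlgebra.coeff_single, Finsupp.single_apply,
      Finsupp.single_apply]
    by_cases hgh : g = h⁻¹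
    · subst hgh
      rw [if_pos (inv_inv h), if_pos rfl]
      congr 2
      rw [map_inv, Int.units_inv_eq_self]
    · rw [if_neg hgh, if_neg (fun e => hgh (by rw [← e, inv_inv])), mul_zero]

theorem adj (a : MonoidAlgebra ℤ G) (x y : L2 G) :
    inner ℂ ((tw w).alg (T w a) x) y = (inner ℂ x ((reg G).alg a y) : ℂ) := by
  refine MonoidAlgebra.induction_linear a ?_ ?_ ?_
  · rw [T_zero, map_zero, map_zero]
    simp
  · intro b c hb hc
    rw [T_add, map_add, map_add]
    change inner ℂ ((tw w).alg (T w b) x + (tw w).alg (T w c) x) y =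
      inner ℂ x ((reg G).alg b y + (reg G).alg c y)
    rw [inner_add_left, inner_add_right, hb, hc]
  · intro g r
    rw [T_single, alg_single, alg_single, tw_hom, inner_smul_left, inner_smul_left,
      inner_smul_right, reg_adj, conj_s, s_inv, Int.cast_mul, map_mul]
    have e1 : (starRingEnd ℂ) ((w g : ℤ) : ℂ) = s w g := conj_s w g
    rw [e1]
    have e2 : (starRingEnd ℂ) ((r : ℤ) : ℂ) = (r : ℂ) := by simp
    rw [e2]
    calc s w g * (r : ℂ) * (s w g * inner ℂ x ((reg G).hom g y)) =
        (s w g * s w g) * ((r : ℂ) * inner ℂ x ((reg G).hom g y)) := by ring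
      _ = (r : ℂ) * inner ℂ x ((reg G).hom g y) := by rw [s_sq, one_mul]

end

theorem twist : S_TWIST := by
  intro G _ w
  refine ⟨tw w, fun g f => rfl, tempered w, fun _ f hf => fixed w f hf, ?_⟩
  intro a b hb x y
  have : b = T w a := by
    ext g
    rw [hb, T_coeff]
  rw [this]
  exact adj w a x y

end Pool.Agent.Q154.PT.Twist
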